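import Mathlib
import Pool.Agent.MP_29bdbb_an.All

open Pool.Agent.MP_29bdbb_an Filter Topology

/-- The entropy of a nonempty matrix shift is the entropy per node of a tree-shift of finite type
on the `d`-ary tree, for every `d ≥ 2`. -/
theorem Pool.Agent.Results.MP_29bdbb_an.NodeEntropy.result (d g : ℕ)
    (A : Matrix (Fin g) (Fin g) ℕ) (hd : 2 ≤ d)
    (hA : ∃ x : ℤ → Fin g, ∀ i, A (x i) (x (i + 1)) ≠ 0) :
    ∃ α : Type, Finite α ∧ ∃ (m : ℕ) (F : Finset (Del d (m + 1) → α)),
      (TS (F : Set (Del d (m + 1) → α))).Nonempty ∧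
      Tendsto (fun n : ℕ => Real.log (Bn (TS (F : Set (Del d (m + 1) → α))) n).ncard /
          Nat.card (Del d n)) atTop
        (𝓝 (Real.log (spectralRadius ℂ (A.map (Nat.cast : ℕ → ℂ))).toReal)) :=
  mainAll d g A hd hA
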